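import Pool.Agent.helper7.FI2.SpecK

/-!
Row fi2:KCC of MP_baa4d7_al (number of characters over an invariant character).
-/

set_option autoImplicit false

namespace Pool.Agent.FI2

open Pool.Agent.helper58.DC Pool.Agent.DI Pool.Agent.GR Pool.Agent.OB Pool.Agent.DR Pool.Agent.FI

/-- the subgroup generated by `K` and a pair -/
def KCC_gen {Γ : Type} [Group Γ] (K : Subgroup Γ) (x : Γ × Γ) : Subgroup Γ :=
  K ⊔ Subgroup.closure {x.1, x.2}

theorem KCC_gen_le {Γ : Type} [Group Γ] {K H : Subgroup Γ} (hKH : K ≤ H) {x : Γ × Γ} :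
    KCC_gen K x ≤ H ↔ x.1 ∈ H ∧ x.2 ∈ H := by
  constructor
  · intro h
    have h1 : Subgroup.closure {x.1, x.2} ≤ H := le_sup_right.trans h
    exact ⟨h1 (Subgroup.subset_closure (Or.inl rfl)), h1 (Subgroup.subset_closure (Or.inr rfl))⟩
  · rintro ⟨h1, h2⟩
    refine sup_le hKH ((Subgroup.closure_le _).2 ?_)
    rintro y (rfl | rfl)
    · exact h1
    · exact h2

/-- in a group which is cyclic modulo the normal subgroup `K` all commutators are in `K` -/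
theorem KCC_comm {Γ : Type} [Group Γ] {K H : Subgroup Γ} (hHK : H ≤ nz K)
    (hC : CyS K H) : ∀ s ∈ H, ∀ g ∈ H, s * g * s⁻¹ * g⁻¹ ∈ K := by
  obtain ⟨r, hr, hr2⟩ := hC
  intro s hs g hg
  obtain ⟨i, hi⟩ := hr2 s hs
  obtain ⟨j, hj⟩ := hr2 g hg
  have nm : ∀ h ∈ H, ∀ x ∈ K, h * x * h⁻¹ ∈ K := fun h hh x hx =>
    (Subgroup.mem_normalizer_iff.1 (hHK hh) x).1 hx
  obtain ⟨a, ha, rfl⟩ : ∃ a ∈ K, s = r ^ (-i) * a := ⟨_, hi, by group⟩
  obtain ⟨b, hb, rfl⟩ : ∃ b ∈ K, g = r ^ (-j) * b := ⟨_, hj, by group⟩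
  have e : r ^ (-i) * a * (r ^ (-j) * b) * (r ^ (-i) * a)⁻¹ * (r ^ (-j) * b)⁻¹ =
      (r ^ (-i) * a * (r ^ (-i))⁻¹) * (r ^ (-i - j) * (b * a⁻¹) * (r ^ (-i - j))⁻¹) *
        (r ^ (-j) * b⁻¹ * (r ^ (-j))⁻¹) := by
    group
  rw [e]
  exact K.mul_mem (K.mul_mem (nm _ (H.zpow_mem hr _) _ ha)
    (nm _ (H.zpow_mem hr _) _ (K.mul_mem hb (K.inv_mem ha))))
    (nm _ (H.zpow_mem hr _) _ (K.inv_mem hb))

/-- a subgroup of a cyclic group is cyclic -/
theorem KCC_sub {Γ : Type} [Group Γ] {K H H' : Subgroup Γ} (hKH' : K ≤ H') (hH'H : H' ≤ H)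
    (hC : CyS K H) : CyS K H' := by
  obtain ⟨r, -, hr2⟩ := hC
  let A : AddSubgroup ℤ :=
    { carrier := {n | r ^ n ∈ H'}
      zero_mem' := by
        change r ^ (0 : ℤ) ∈ H'
        rw [zpow_zero]
        exact H'.one_mem
      add_mem' := by
        intro a b ha hb
        change r ^ (a + b) ∈ H'
        rw [zpow_add]
        exact H'.mul_mem ha hb
      neg_mem' := by
        intro a ha
        change r ^ (-a) ∈ H'
        rw [zpow_neg]
        exact H'.inv_mem ha }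
  obtain ⟨d, hd⟩ := Int.subgroup_cyclic A
  have hdA : d ∈ A := by
    rw [hd]
    exact AddSubgroup.mem_closure_singleton_self d
  refine ⟨r ^ d, hdA, fun x hx => ?_⟩
  obtain ⟨k, hk⟩ := hr2 x (hH'H hx)
  have hkA : k ∈ A := by
    change r ^ k ∈ H'
    have e : r ^ k = (r ^ k * x) * x⁻¹ := by group
    rw [e]
    exact H'.mul_mem (hKH' hk) (H'.inv_mem hx)
  rw [hd, AddSubgroup.mem_closure_singleton] at hkA
  obtain ⟨m, hm⟩ := hkA
  refine ⟨m, ?_⟩
  have hdm : d * m = k := by rw [← hm, smul_eq_mul, mul_comm]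
  rw [← zpow_mul, hdm]
  exact hk

/-- the elements which are powers of `r` modulo `K` -/
def KCC_W {Γ : Type} [Group Γ] (K : Subgroup Γ) (r : Γ) (hr : r ∈ nz K) : Subgroup Γ where
  carrier := {x | ∃ n : ℤ, r ^ n * x ∈ K}
  mul_mem' := by
    rintro a b ⟨n, hn⟩ ⟨m, hm⟩
    refine ⟨m + n, ?_⟩
    have e : r ^ (m + n) * (a * b) = (r ^ m * (r ^ n * a) * (r ^ m)⁻¹) * (r ^ m * b) := by group
    rw [e]
    exact K.mul_mem ((Subgroup.mem_normalizer_iff.1 ((nz K).zpow_mem hr m) _).1 hn) hm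
  one_mem' := ⟨0, by rw [zpow_zero, mul_one]; exact K.one_mem⟩
  inv_mem' := by
    rintro a ⟨n, hn⟩
    refine ⟨-n, ?_⟩
    have e : r ^ (-n) * a⁻¹ = r ^ (-n) * (r ^ n * a)⁻¹ * (r ^ (-n))⁻¹ := by group
    rw [e]
    exact (Subgroup.mem_normalizer_iff.1 ((nz K).zpow_mem hr (-n)) _).1 (K.inv_mem hn)

theorem KCC_cys {Γ : Type} [Group Γ] {K S : Subgroup Γ} (hKS : K ≤ S) (hSK : S ≤ nz K)
    (hCY : CY2 K S) {x : Γ × Γ} (h1 : x.1 ∈ S) (h2 : x.2 ∈ S)
    (h3 : x.1 * x.2 * x.1⁻¹ * x.2⁻¹ ∈ K) : CyS K (KCC_gen K x) := by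
  obtain ⟨r, hr, hi, hj⟩ := hCY x.1 h1 x.2 h2 h3
  have hKW : K ≤ KCC_W K r (hSK hr) ⊓ S := le_inf (fun k hk => ⟨0, by
    rw [zpow_zero, one_mul]
    exact hk⟩) hKS
  have hcy : CyS K (KCC_W K r (hSK hr) ⊓ S) := by
    refine ⟨r, ⟨⟨-1, ?_⟩, hr⟩, fun y hy => hy.1⟩
    rw [zpow_neg_one, inv_mul_cancel]
    exact K.one_mem
  refine KCC_sub le_sup_left ?_ hcy
  exact (KCC_gen_le hKW).2 ⟨⟨hi, h1⟩, ⟨hj, h2⟩⟩

theorem KCC (hKTF : KTF_stmt) (hFCE : FCE_stmt) : KCC_stmt := by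
  intro Γ _ _ K S hKS hSK hCY ψ hψ hinv
  classical
  have := Fintype.ofFinite Γ
  have := Fintype.ofFinite (Subgroup Γ)
  let P : Subgroup Γ → Finset (Γ × Γ) := fun H => Finset.univ.filter fun x =>
    x.1 ∈ H ∧ x.2 ∈ H ∧ x.1 * x.2 * x.1⁻¹ * x.2⁻¹ ∈ K
  have hPm : ∀ H x, x ∈ P H ↔ x.1 ∈ H ∧ x.2 ∈ H ∧ x.1 * x.2 * x.1⁻¹ * x.2⁻¹ ∈ K := fun H x => by
    simp [P]
  have hfm : ∀ H H' x, x ∈ (P H).filter (fun x => KCC_gen K x = H') ↔
      (x.1 ∈ H ∧ x.2 ∈ H ∧ x.1 * x.2 * x.1⁻¹ * x.2⁻¹ ∈ K) ∧ KCC_gen K x = H' := fun H H' x =>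
    Finset.mem_filter.trans (and_congr_left' (hPm H x))
  have hPn : ∀ H, nP K H = (P H).card := by
    intro H
    unfold nP
    rw [← Set.ncard_coe_finset]
    congr 1
    ext x
    exact (hPm H x).symm
  let f : Γ × Γ → ℂ := fun x => ψ 1 * ψ (x.2 * x.1 * x.2⁻¹ * x.1⁻¹) - 1
  -- the trace formula in terms of `f`
  have htr : ∀ H : Subgroup Γ, K ≤ H → H ≤ S →
      ∑ x ∈ P H, f x = (Nat.card K : ℂ) * Nat.card H *
        {φ : Γ → ℂ | φ ∈ IrrOn H ∧ ∃ e : ℕ, 0 < e ∧ ∀ x ∈ K, φ x = e * ψ x}.ncard -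
          ((P H).card : ℕ) := by
    intro H hKH hHS
    rw [hKTF Γ K H hKH (hHS.trans hSK) ψ hψ fun s hs => hinv s (hHS hs)]
    rw [finsum_mem_eq_finite_toFinset_sum _ (Set.toFinite _), Finset.mul_sum]
    have e1 : (Set.toFinite {x : Γ × Γ | x.1 ∈ H ∧ x.2 ∈ H ∧
        x.1 * x.2 * x.1⁻¹ * x.2⁻¹ ∈ K}).toFinset = P H := by
      ext x
      rw [Set.Finite.mem_toFinset, hPm]
      exact Iff.rfl
    rw [e1]
    have e2 : (((P H).card : ℕ) : ℂ) = ∑ x ∈ P H, (1 : ℂ) := by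
      rw [Finset.sum_const, nsmul_eq_mul, mul_one]
    rw [e2, ← Finset.sum_sub_distrib]
  have hclaim : ∀ n : ℕ, ∀ H : Subgroup Γ, Nat.card H = n → K ≤ H → H ≤ S → CyS K H →
      ∑ x ∈ (P S).filter (fun x => KCC_gen K x = H), f x = 0 := by
    intro n
    induction n using Nat.strong_induction_on with
    | _ n ih =>
      intro H hn hKH hHS hcy
      have hcm := KCC_comm (hHS.trans hSK) hcy
      have hcard : (P H).card = Nat.card H ^ 2 := by
        have e : P H = (Finset.univ.filter fun x : Γ => x ∈ H) ×ˢ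
            (Finset.univ.filter fun x : Γ => x ∈ H) := by
          ext x
          rw [hPm, Finset.mem_product, Finset.mem_filter, Finset.mem_filter]
          constructor
          · rintro ⟨h1, h2, -⟩
            exact ⟨⟨Finset.mem_univ _, h1⟩, Finset.mem_univ _, h2⟩
          · rintro ⟨⟨-, h1⟩, -, h2⟩
            exact ⟨h1, h2, hcm _ h1 _ h2⟩
        rw [e, Finset.card_product, Nat.card_eq_fintype_card, Fintype.card_subtype, pow_two]
      obtain ⟨hF1, hF2⟩ := hFCE Γ K H hKH (hHS.trans hSK) hcy ψ hψ fun s hs => hinv s (hHS hs)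
      have hset : {φ : Γ → ℂ | φ ∈ IrrOn H ∧ ∃ e : ℕ, 0 < e ∧ ∀ x ∈ K, φ x = e * ψ x} =
          {φ : Γ → ℂ | φ ∈ IrrOn H ∧ ∀ x ∈ K, φ x = ψ x} := by
        ext φ
        constructor
        · rintro ⟨h1, e, he, h2⟩
          have := hF2 φ h1 e he h2
          subst this
          exact ⟨h1, fun x hx => by rw [h2 x hx, Nat.cast_one, one_mul]⟩
        · rintro ⟨h1, h2⟩
          exact ⟨h1, 1, one_pos, fun x hx => by rw [h2 x hx, Nat.cast_one, one_mul]⟩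
      have htot : ∑ x ∈ P H, f x = 0 := by
        rw [htr H hKH hHS, hset, hcard]
        have h3 : ((({φ : Γ → ℂ | φ ∈ IrrOn H ∧ ∀ x ∈ K, φ x = ψ x}.ncard * Nat.card K : ℕ)) : ℂ) =
            (Nat.card H : ℕ) := by rw [hF1]
        rw [Nat.cast_mul] at h3
        rw [Nat.cast_pow]
        linear_combination (Nat.card H : ℂ) * h3
      have hfib := Finset.sum_fiberwise (P H) (fun x => KCC_gen K x) f
      rw [htot, Finset.sum_eq_single H] at hfib
      · rw [← hfib]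
        refine Finset.sum_congr ?_ fun _ _ => rfl
        ext x
        refine (hfm S H x).trans (Iff.trans ?_ (hfm H H x).symm)
        constructor
        · rintro ⟨⟨-, -, h3⟩, h4⟩
          have h5 := (KCC_gen_le hKH (x := x)).1 h4.le
          exact ⟨⟨h5.1, h5.2, h3⟩, h4⟩
        · rintro ⟨⟨h1, h2, h3⟩, h4⟩
          exact ⟨⟨hHS h1, hHS h2, h3⟩, h4⟩
      · intro H' _ hne
        by_cases hex : ∃ x ∈ P H, KCC_gen K x = H'
        · obtain ⟨x₀, hx₀, hx₀'⟩ := hex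
          rw [hPm] at hx₀
          have hle : H' ≤ H := by
            rw [← hx₀']
            exact (KCC_gen_le hKH).2 ⟨hx₀.1, hx₀.2.1⟩
          have hKH' : K ≤ H' := by
            rw [← hx₀']
            exact le_sup_left
          have hlt : Nat.card H' < Nat.card H := by
            rcases lt_or_eq_of_le (Subgroup.card_le_of_le hle) with h | h
            · exact h
            · exact absurd (Subgroup.eq_of_le_of_card_ge hle h.ge) hne
          have h6 := ih (Nat.card H') (hn ▸ hlt) H' rfl hKH' (hle.trans hHS)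
            (KCC_sub hKH' hle hcy)
          rw [← h6]
          refine Finset.sum_congr ?_ fun _ _ => rfl
          ext x
          refine (hfm H H' x).trans (Iff.trans ?_ (hfm S H' x).symm)
          constructor
          · rintro ⟨⟨h1, h2, h3⟩, h4⟩
            exact ⟨⟨hHS h1, hHS h2, h3⟩, h4⟩
          · rintro ⟨⟨-, -, h3⟩, h4⟩
            have h5 := (KCC_gen_le hKH (x := x)).1 (h4.le.trans hle)
            exact ⟨⟨h5.1, h5.2, h3⟩, h4⟩
        · rw [Finset.filter_false_of_mem, Finset.sum_empty]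
          intro x hx hx2
          exact hex ⟨x, hx, hx2⟩
      · intro h
        exact absurd (Finset.mem_univ _) h
  have hfinal : ∑ x ∈ P S, f x = 0 := by
    rw [← Finset.sum_fiberwise (P S) (fun x => KCC_gen K x) f]
    refine Finset.sum_eq_zero fun H _ => ?_
    by_cases hex : ∃ x ∈ P S, KCC_gen K x = H
    · obtain ⟨x₀, hx₀, hx₀'⟩ := hex
      rw [hPm] at hx₀
      subst hx₀'
      exact hclaim _ _ rfl le_sup_left ((KCC_gen_le hKS).2 ⟨hx₀.1, hx₀.2.1⟩)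
        (KCC_cys hKS hSK hCY hx₀.1 hx₀.2.1 hx₀.2.2)
    · rw [Finset.filter_false_of_mem, Finset.sum_empty]
      intro x hx hx2
      exact hex ⟨x, hx, hx2⟩
  have h7 := htr S hKS le_rfl
  rw [hfinal] at h7
  rw [hPn]
  have h8 : (((Nat.card K * Nat.card S *
      {φ : Γ → ℂ | φ ∈ IrrOn S ∧ ∃ e : ℕ, 0 < e ∧ ∀ x ∈ K, φ x = e * ψ x}.ncard : ℕ)) : ℂ) =
      ((P S).card : ℕ) := by
    rw [Nat.cast_mul, Nat.cast_mul]
    exact (sub_eq_zero.1 h7.symm)
  rw [Nat.mul_comm]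
  exact Nat.cast_injective h8

end Pool.Agent.FI2
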