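import Pool.Agent.helper7.FI2.SpecK

/-!
Row fi2:KF1 of MP_baa4d7_al.
-/

set_option autoImplicit false

namespace Pool.Agent.FI2

open Pool.Agent.helper58.DC Pool.Agent.DI Pool.Agent.GR Pool.Agent.OB Pool.Agent.DR Pool.Agent.FI

/-- the elements of `T` which commute with `y` modulo `C` -/
def KF1_Z {G : Type} [Group G] (C T : Subgroup G) (hT : T ≤ nz C) (y : G) : Subgroup G where
  carrier := {x | x ∈ T ∧ x * y * x⁻¹ * y⁻¹ ∈ C}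
  mul_mem' := by
    rintro a b ⟨ha, ha'⟩ ⟨hb, hb'⟩
    refine ⟨T.mul_mem ha hb, ?_⟩
    have e : (a * b) * y * (a * b)⁻¹ * y⁻¹ = (a * (b * y * b⁻¹ * y⁻¹) * a⁻¹) * (a * y * a⁻¹ * y⁻¹) := by
      group
    rw [e]
    exact C.mul_mem ((Subgroup.mem_normalizer_iff.1 (hT ha) _).1 hb') ha'
  one_mem' := ⟨T.one_mem, by simp⟩
  inv_mem' := by
    rintro a ⟨ha, ha'⟩
    refine ⟨T.inv_mem ha, ?_⟩
    have e : a⁻¹ * y * a⁻¹⁻¹ * y⁻¹ = a⁻¹ * (a * y * a⁻¹ * y⁻¹)⁻¹ * a⁻¹⁻¹ := by group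
    rw [e]
    exact (Subgroup.mem_normalizer_iff.1 (hT (T.inv_mem ha)) _).1 (C.inv_mem ha')

theorem KF1_mem {G : Type} [Group G] {C T : Subgroup G} {hT : T ≤ nz C} {x y : G} :
    x ∈ KF1_Z C T hT y ↔ x ∈ T ∧ x * y * x⁻¹ * y⁻¹ ∈ C := Iff.rfl

theorem KF1_symm {G : Type} [Group G] {C T : Subgroup G} {hT : T ≤ nz C} {x y : G} (hy : y ∈ T)
    (h : x ∈ KF1_Z C T hT y) : y ∈ KF1_Z C T hT x := by
  refine ⟨hy, ?_⟩
  have e : y * x * y⁻¹ * x⁻¹ = (x * y * x⁻¹ * y⁻¹)⁻¹ := by group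
  rw [e]
  exact C.inv_mem h.2

theorem KF1_C {G : Type} [Group G] {C T : Subgroup G} {hT : T ≤ nz C} (hCT : C ≤ T) {y : G}
    (hy : y ∈ T) : C ≤ KF1_Z C T hT y := by
  intro c hc
  refine ⟨hCT hc, ?_⟩
  have e : c * y * c⁻¹ * y⁻¹ = c * (y * c⁻¹ * y⁻¹) := by group
  rw [e]
  exact C.mul_mem hc ((Subgroup.mem_normalizer_iff.1 (hT hy) _).1 (C.inv_mem hc))

/-- the subgroup generated by `C` and two elements which commute modulo `C` -/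
theorem KF1_comm {G : Type} [Group G] {C T : Subgroup G} (hT : T ≤ nz C) (hCT : C ≤ T) {s g : G}
    (hs : s ∈ T) (hg : g ∈ T) (h : s * g * s⁻¹ * g⁻¹ ∈ C) :
    C ⊔ Subgroup.closure {s, g} ≤ T ∧ ∀ a ∈ C ⊔ Subgroup.closure {s, g},
      ∀ b ∈ C ⊔ Subgroup.closure {s, g}, a * b * a⁻¹ * b⁻¹ ∈ C := by
  have hVT : C ⊔ Subgroup.closure {s, g} ≤ T := by
    refine sup_le hCT ((Subgroup.closure_le _).2 ?_)
    rintro x (rfl | rfl)
    · exact hs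
    · exact hg
  have hle : ∀ y ∈ T, s ∈ KF1_Z C T hT y → g ∈ KF1_Z C T hT y →
      C ⊔ Subgroup.closure {s, g} ≤ KF1_Z C T hT y := by
    intro y hy h1 h2
    refine sup_le (KF1_C hCT hy) ((Subgroup.closure_le _).2 ?_)
    rintro x (rfl | rfl)
    · exact h1
    · exact h2
  have hss : s ∈ KF1_Z C T hT s := ⟨hs, by simp⟩
  have hgg : g ∈ KF1_Z C T hT g := ⟨hg, by simp⟩
  have hsg : s ∈ KF1_Z C T hT g := ⟨hs, h⟩
  have hgs : g ∈ KF1_Z C T hT s := KF1_symm hg hsg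
  refine ⟨hVT, fun a ha b hb => ?_⟩
  have h1 : s ∈ KF1_Z C T hT b := KF1_symm hs (hle s hs hss hgs hb)
  have h2 : g ∈ KF1_Z C T hT b := KF1_symm hg (hle g hg hsg hgg hb)
  exact (hle b (hVT hb) h1 h2 ha).2

theorem KF1 (hFCY : FCY_stmt) : KF1_stmt := by
  intro G _ _ D C T hD hDc hCT hTD hTC hCD hfree s hs g hg hsg
  obtain ⟨hVT, hVc⟩ := KF1_comm hTC hCT hs hg hsg
  obtain ⟨r, hr, hr2⟩ := hFCY G D C (C ⊔ Subgroup.closure {s, g}) hD hDc le_sup_left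
    (hVT.trans hTD) hCD hVc fun t ht u hu hu1 htu => hfree t (hVT ht) u hu hu1 htu
  have hsV : s ∈ C ⊔ Subgroup.closure {s, g} :=
    le_sup_right (a := C) (Subgroup.subset_closure (Or.inl rfl))
  have hgV : g ∈ C ⊔ Subgroup.closure {s, g} :=
    le_sup_right (a := C) (Subgroup.subset_closure (Or.inr rfl))
  exact ⟨r, hVT hr, hr2 s hsV, hr2 g hgV⟩

end Pool.Agent.FI2
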