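import Pool.Agent.helper7.FI2.SpecK

/-!
Row fi2:KFP of MP_baa4d7_al.
-/

set_option autoImplicit false

namespace Pool.Agent.FI2

open Pool.Agent.helper58.DC Pool.Agent.DI Pool.Agent.GR Pool.Agent.OB Pool.Agent.DR Pool.Agent.FI

theorem KFP_mem {Γ : Type} [Group Γ] {N : Subgroup Γ} {ψ : Γ → ℂ} {n : Γ} :
    n ∈ stF N ψ ↔ n ∈ N ∧ cjF n ψ = ψ := Iff.rfl

theorem KFP_pow {Γ : Type} [Group Γ] {ψ : Γ → ℂ} {r s c : Γ} {i : ℤ} (hc : c = r ^ i * s)
    (h1 : cjF r ψ = ψ) (h2 : cjF c ψ = ψ) : cjF s ψ = ψ := by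
  have hr : r ∈ stF ⊤ ψ := KFP_mem.2 ⟨Subgroup.mem_top _, h1⟩
  have hc' : c ∈ stF ⊤ ψ := KFP_mem.2 ⟨Subgroup.mem_top _, h2⟩
  have hs : s = (r ^ i)⁻¹ * c := by rw [hc]; group
  have : s ∈ stF ⊤ ψ := by
    rw [hs]
    exact Subgroup.mul_mem _ (Subgroup.inv_mem _ (Subgroup.zpow_mem _ hr i)) hc'
  exact (KFP_mem.1 this).2

theorem KFP : KFP_stmt := by
  intro Γ _ _ C T B y hCT hCY hB hCB hy
  classical
  have := Fintype.ofFinite Γ
  let P : Finset (Γ × Γ) := Finset.univ.filter fun x =>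
    x.1 ∈ T ∧ x.2 ∈ T ∧ x.1 * x.2 * x.1⁻¹ * x.2⁻¹ ∈ C
  let Q : Finset (Γ × Γ) := Finset.univ.filter fun x => x.1 ∈ C ∧ x.2 ∈ C
  let Bf : Finset (Γ → ℂ) := hB.toFinset
  let R : (Γ → ℂ) → Γ × Γ → Prop := fun ψ x => cjF x.1 ψ = ψ ∧ cjF x.2 ψ = ψ
  have hQP : Q ⊆ P := by
    intro x hx
    simp only [Q, P, Finset.mem_filter, Finset.mem_univ, true_and] at hx ⊢
    exact ⟨hCT hx.1, hCT hx.2, C.mul_mem (C.mul_mem (C.mul_mem hx.1 hx.2) (C.inv_mem hx.1))
      (C.inv_mem hx.2)⟩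
  have hnP : nP C T = P.card := by
    unfold nP
    rw [← Set.ncard_coe_finset]
    congr 1
    ext x
    simp [P]
  have hnS : ∀ ψ, nP C (stF T ψ) = (P.filter fun x => R ψ x).card := by
    intro ψ
    unfold nP
    rw [← Set.ncard_coe_finset]
    congr 1
    ext x
    simp only [Set.mem_setOf_eq, Finset.coe_filter, P, R, Finset.mem_filter, Finset.mem_univ,
      true_and, KFP_mem]
    tauto
  have hQc : Q.card = Nat.card C ^ 2 := by
    have e : Q = (Finset.univ.filter fun x : Γ => x ∈ C) ×ˢ (Finset.univ.filter fun x : Γ => x ∈ C) := by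
      ext x
      simp [Q]
    rw [e, Finset.card_product, Nat.card_eq_fintype_card, Fintype.card_subtype, pow_two]
  have hBn : B.ncard = Bf.card := Set.ncard_eq_toFinset_card B hB
  -- fixed points of a pair
  have hpair : ∀ x ∈ P, x ∉ Q → (Bf.filter fun ψ => R ψ x).card = y := by
    intro x hx hxQ
    simp only [Q, P, Finset.mem_filter, Finset.mem_univ, true_and] at hx hxQ
    obtain ⟨hs, hg, hsg⟩ := hx
    obtain ⟨r, hr, ⟨i, hi⟩, j, hj⟩ := hCY x.1 hs x.2 hg hsg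
    have hfix : ∀ t ∈ T, t ∉ C → (Bf.filter fun ψ => cjF t ψ = ψ).card = y := by
      intro t ht htC
      rw [← hy t ht htC, ← Set.ncard_coe_finset]
      congr 1
      ext ψ
      simp [Bf]
    have h1 : ∀ ψ ∈ Bf, cjF r ψ = ψ → cjF x.1 ψ = ψ := fun ψ hψ h =>
      KFP_pow rfl h (hCB _ hi ψ (hB.mem_toFinset.1 hψ))
    have h2 : ∀ ψ ∈ Bf, cjF r ψ = ψ → cjF x.2 ψ = ψ := fun ψ hψ h =>
      KFP_pow rfl h (hCB _ hj ψ (hB.mem_toFinset.1 hψ))
    have hrC : r ∉ C := by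
      intro hrC
      apply hxQ
      constructor
      · have e : x.1 = (r ^ i)⁻¹ * (r ^ i * x.1) := by group
        rw [e]
        exact C.mul_mem (C.inv_mem (C.zpow_mem hrC i)) hi
      · have e : x.2 = (r ^ j)⁻¹ * (r ^ j * x.2) := by group
        rw [e]
        exact C.mul_mem (C.inv_mem (C.zpow_mem hrC j)) hj
    have hsub1 : (Bf.filter fun ψ => cjF r ψ = ψ) ⊆ Bf.filter fun ψ => cjF x.1 ψ = ψ := by
      intro ψ hψ
      rw [Finset.mem_filter] at hψ ⊢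
      exact ⟨hψ.1, h1 ψ hψ.1 hψ.2⟩
    have hsub2 : (Bf.filter fun ψ => cjF r ψ = ψ) ⊆ Bf.filter fun ψ => cjF x.2 ψ = ψ := by
      intro ψ hψ
      rw [Finset.mem_filter] at hψ ⊢
      exact ⟨hψ.1, h2 ψ hψ.1 hψ.2⟩
    have hfin : (Bf.filter fun ψ => R ψ x) = Bf.filter fun ψ => cjF r ψ = ψ := by
      by_cases hsC : x.1 ∈ C
      · have hgC : x.2 ∉ C := fun h => hxQ ⟨hsC, h⟩
        have heq := Finset.eq_of_subset_of_card_le hsub2
          (by rw [hfix r hr hrC, hfix x.2 hg hgC])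
        ext ψ
        constructor
        · intro hψ
          rw [Finset.mem_filter] at hψ
          rw [heq, Finset.mem_filter]
          exact ⟨hψ.1, hψ.2.2⟩
        · intro hψ
          rw [Finset.mem_filter] at hψ ⊢
          exact ⟨hψ.1, h1 ψ hψ.1 hψ.2, h2 ψ hψ.1 hψ.2⟩
      · have heq := Finset.eq_of_subset_of_card_le hsub1
          (by rw [hfix r hr hrC, hfix x.1 hs hsC])
        ext ψ
        constructor
        · intro hψ
          rw [Finset.mem_filter] at hψ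
          rw [heq, Finset.mem_filter]
          exact ⟨hψ.1, hψ.2.1⟩
        · intro hψ
          rw [Finset.mem_filter] at hψ ⊢
          exact ⟨hψ.1, h1 ψ hψ.1 hψ.2, h2 ψ hψ.1 hψ.2⟩
    rw [hfin, hfix r hr hrC]
  have hQpair : ∀ x ∈ Q, (Bf.filter fun ψ => R ψ x).card = Bf.card := by
    intro x hx
    simp only [Q, Finset.mem_filter, Finset.mem_univ, true_and] at hx
    rw [Finset.filter_true_of_mem]
    intro ψ hψ
    exact ⟨hCB _ hx.1 ψ (hB.mem_toFinset.1 hψ), hCB _ hx.2 ψ (hB.mem_toFinset.1 hψ)⟩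
  have hswap : ∑ ψ ∈ Bf, (P.filter fun x => R ψ x).card =
      ∑ x ∈ P, (Bf.filter fun ψ => R ψ x).card := by
    simp only [Finset.card_filter]
    exact Finset.sum_comm
  have hsplit : ∑ x ∈ P, (Bf.filter fun ψ => R ψ x).card =
      Q.card * Bf.card + (P \ Q).card * y := by
    rw [← Finset.sum_sdiff hQP, Finset.sum_congr rfl hQpair,
      Finset.sum_congr rfl fun x hx => hpair x (Finset.mem_sdiff.1 hx).1 (Finset.mem_sdiff.1 hx).2,
      Finset.sum_const, Finset.sum_const, smul_eq_mul, smul_eq_mul, Nat.add_comm]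
  rw [finsum_mem_eq_finite_toFinset_sum _ hB, Finset.sum_congr rfl fun ψ _ => hnS ψ, hswap, hsplit,
    hnP, hBn, ← hQc]
  have h3 : (P \ Q).card + Q.card = P.card := Finset.card_sdiff_add_card_eq_card hQP
  rw [← h3]
  ring

end Pool.Agent.FI2
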