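import Pool.Agent.helper7.FI2.SpecK

/-!
Row fi2:KTF of MP_baa4d7_al (trace formula).
-/

set_option autoImplicit false

namespace Pool.Agent.FI2

open Pool.Agent.helper58.DC Pool.Agent.DI Pool.Agent.GR Pool.Agent.OB Pool.Agent.DR Pool.Agent.FI

/-- the idempotent of all characters is the unit element -/
theorem KTF_dl (hB2 : B2_stmt) (hIDM : IDM_stmt) (hEXP : EXP_stmt) (G : Type) [Group G] [Finite G]
    (H : Subgroup G) : eS H (IrrOn H) = GR.dl := by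
  classical
  have := Fintype.ofFinite G
  obtain ⟨h1, h2, -, -⟩ := hIDM G H (IrrOn H) subset_rfl
  have h3 : CF H (eS H (IrrOn H) - GR.dl) := by
    constructor
    · intro h hh x
      have e1 := h1.1 h hh x
      have e2 : (GR.dl : G → ℂ) (h * x * h⁻¹) = GR.dl x := by
        unfold GR.dl
        by_cases hx : x = 1
        · rw [if_pos hx, if_pos (by rw [hx]; group)]
        · rw [if_neg hx, if_neg]
          intro h4
          apply hx
          have : x = h⁻¹ * (h * x * h⁻¹) * h := by group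
          rw [this, h4]
          group
      change eS H (IrrOn H) _ - GR.dl _ = eS H (IrrOn H) _ - GR.dl _
      rw [e1, e2]
    · intro x hx
      change eS H (IrrOn H) x - GR.dl x = 0
      rw [h1.2 x hx]
      unfold GR.dl
      have h0 : x ≠ 1 := fun h => hx (by rw [h]; exact H.one_mem)
      rw [if_neg h0, sub_zero]
  have h4 := hEXP G H _ h3 (fun ψ hψ => by
    have h5 := h2 ψ hψ
    rw [if_pos hψ] at h5
    obtain ⟨⟨n, hn, hn1, -⟩, -⟩ := (hB2 G H).2 ψ hψ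
    have h6 : ψ 1 ≠ 0 := by
      rw [hn1]
      exact Nat.cast_ne_zero.2 hn.ne'
    unfold cc at h5 ⊢
    rw [finsum_eq_sum_of_fintype] at h5 ⊢
    have h7 : ∑ x : G, (eS H (IrrOn H) - GR.dl : G → ℂ) x * ψ x =
        ∑ x : G, eS H (IrrOn H) x * ψ x - ψ 1 := by
      have h8 : ∑ x : G, (GR.dl : G → ℂ) x * ψ x = ψ 1 := by
        rw [Finset.sum_eq_single (1 : G)]
        · simp [GR.dl]
        · intro b _ hb
          simp [GR.dl, hb]
        · intro h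
          exact absurd (Finset.mem_univ _) h
      rw [← h8, ← Finset.sum_sub_distrib]
      refine Finset.sum_congr rfl fun x _ => ?_
      rw [Pi.sub_apply, sub_mul]
    rw [h7, sub_div, h5, div_self h6, sub_self])
  exact sub_eq_zero.1 h4

/-- column orthogonality -/
theorem KTF_col (hB2 : B2_stmt) (hIDM : IDM_stmt) (hEXP : EXP_stmt) (G : Type) [Group G] [Finite G]
    (H : Subgroup G) (a b : G) (ha : a ∈ H) (hb : b ∈ H) :
    ∑ᶠ z ∈ (H : Set G), GR.dl (z⁻¹ * a⁻¹ * z * b) = Sf (IrrOn H) a b := by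
  rw [← KTF_dl hB2 hIDM hEXP G H]
  exact (hIDM G H (IrrOn H) subset_rfl).2.2.2 a ha b hb

/-- the key identity (1) -/
theorem KTF_avg (hSCH : SCH_stmt) (hB2 : B2_stmt) {Γ : Type} [Group Γ] [Fintype Γ]
    (S : Subgroup Γ) (ψ : Γ → ℂ) (hinv : ∀ s ∈ S, cjF s ψ = ψ) (φ : Γ → ℂ) (hφ : φ ∈ IrrOn S)
    (g : Γ) (hg : g ∈ S) :
    φ 1 * ∑ k : Γ, ψ k⁻¹ * φ (k * g) = φ g * ∑ k : Γ, ψ k⁻¹ * φ k := by
  classical
  obtain ⟨-, hcl, -, -, -⟩ := (hB2 Γ S).2 φ hφ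
  have hψ : ∀ t ∈ S, ∀ x, ψ (t * x * t⁻¹) = ψ x := by
    intro t ht x
    have h := congrFun (hinv t⁻¹ (S.inv_mem ht)) x
    rw [cjF_apply, inv_inv] at h
    exact h
  have h1 : ∀ t ∈ S, ∑ k : Γ, ψ k⁻¹ * φ (k * g) = ∑ k : Γ, ψ k⁻¹ * φ (g * (t * k * t⁻¹)) := by
    intro t ht
    have e1 : ∑ k : Γ, ψ k⁻¹ * φ (k * g) = ∑ k : Γ, ψ k⁻¹ * φ (g * k) := by
      refine Finset.sum_congr rfl fun k _ => ?_
      have h := hcl (k * g) g hg
      have e : g * (k * g) * g⁻¹ = g * k := by group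
      rw [e] at h
      rw [h]
    rw [e1, ← Equiv.sum_comp (MulAut.conj t).toEquiv (fun k => ψ k⁻¹ * φ (g * k))]
    refine Finset.sum_congr rfl fun k _ => ?_
    change ψ (t * k * t⁻¹)⁻¹ * φ (g * (t * k * t⁻¹)) = _
    have e : (t * k * t⁻¹)⁻¹ = t * k⁻¹ * t⁻¹ := by group
    rw [e, hψ t ht]
  let T : Finset Γ := Finset.univ.filter fun x => x ∈ S
  have hT : (T.card : ℂ) = (Nat.card S : ℂ) := by
    rw [Nat.card_eq_fintype_card, Fintype.card_subtype]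
  have hS0 : (Nat.card S : ℂ) ≠ 0 := Nat.cast_ne_zero.2 Nat.card_pos.ne'
  have h2 : (Nat.card S : ℂ) * ∑ k : Γ, ψ k⁻¹ * φ (k * g) =
      ∑ k : Γ, ψ k⁻¹ * ∑ t ∈ T, φ (g * (t * k * t⁻¹)) := by
    rw [← hT, ← nsmul_eq_mul, ← Finset.sum_const, Finset.sum_congr rfl fun t ht =>
      h1 t (Finset.mem_filter.1 ht).2, Finset.sum_comm]
    exact Finset.sum_congr rfl fun k _ => (Finset.mul_sum _ _ _).symm
  have h3 : ∀ k : Γ, φ 1 * ∑ t ∈ T, φ (g * (t * k * t⁻¹)) = (Nat.card S : ℂ) * φ g * φ k := by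
    intro k
    have h := hSCH Γ S φ hφ g hg k
    rw [finsum_mem_eq_finite_toFinset_sum _ (Set.toFinite (S : Set Γ))] at h
    rw [← h]
    congr 1
    refine Finset.sum_congr ?_ fun _ _ => rfl
    ext x
    rw [Set.Finite.mem_toFinset, Finset.mem_filter]
    exact ⟨fun h => h.2, fun h => ⟨Finset.mem_univ _, h⟩⟩
  have h4 : (Nat.card S : ℂ) * (φ 1 * ∑ k : Γ, ψ k⁻¹ * φ (k * g)) =
      (Nat.card S : ℂ) * (φ g * ∑ k : Γ, ψ k⁻¹ * φ k) := by
    calc (Nat.card S : ℂ) * (φ 1 * ∑ k : Γ, ψ k⁻¹ * φ (k * g))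
        = φ 1 * ((Nat.card S : ℂ) * ∑ k : Γ, ψ k⁻¹ * φ (k * g)) := by ring
      _ = ∑ k : Γ, ψ k⁻¹ * (φ 1 * ∑ t ∈ T, φ (g * (t * k * t⁻¹))) := by
        rw [h2, Finset.mul_sum]
        exact Finset.sum_congr rfl fun k _ => by ring
      _ = ∑ k : Γ, ψ k⁻¹ * ((Nat.card S : ℂ) * φ g * φ k) :=
        Finset.sum_congr rfl fun k _ => by rw [h3 k]
      _ = (Nat.card S : ℂ) * (φ g * ∑ k : Γ, ψ k⁻¹ * φ k) := by
        rw [Finset.mul_sum, Finset.mul_sum]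
        exact Finset.sum_congr rfl fun k _ => by ring
  exact mul_left_cancel₀ hS0 h4

open Classical in
/-- the coefficient (2) -/
theorem KTF_coef (hSCH : SCH_stmt) (hB2 : B2_stmt) (hCFA : CFA_stmt) (hCCJ : CCJ_stmt)
    {Γ : Type} [Group Γ] [Fintype Γ] (K S : Subgroup Γ) (hKS : K ≤ S) (hSK : S ≤ nz K)
    (ψ : Γ → ℂ) (hψ : ψ ∈ IrrOn K) (hinv : ∀ s ∈ S, cjF s ψ = ψ) (φ : Γ → ℂ) (hφ : φ ∈ IrrOn S)
    (g : Γ) (hg : g ∈ S) :
    ψ 1 * ∑ k : Γ, ψ k⁻¹ * φ (k * g) =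
      (if ∃ e : ℕ, 0 < e ∧ ∀ x ∈ K, φ x = e * ψ x then (Nat.card K : ℂ) else 0) * φ g := by
  have havg := KTF_avg hSCH hB2 S ψ hinv φ hφ g hg
  obtain ⟨⟨n, hn, hn1, -⟩, -, -, hψ0, horth⟩ := (hB2 Γ K).2 ψ hψ
  obtain ⟨⟨n', hn', hn1', -⟩, -⟩ := (hB2 Γ S).2 φ hφ
  have hφ1 : φ 1 ≠ 0 := by
    rw [hn1']
    exact Nat.cast_ne_zero.2 hn'.ne'
  have hz : ∀ k, k ∉ K → ψ k⁻¹ = 0 := fun k hk => hψ0 _ fun h => hk (by
    have := K.inv_mem h
    rwa [inv_inv] at this)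
  by_cases he : ∃ e : ℕ, 0 < e ∧ ∀ x ∈ K, φ x = e * ψ x
  · rw [if_pos he]
    obtain ⟨e, he0, he⟩ := he
    have hs : ∑ k : Γ, ψ k⁻¹ * φ k = e * (Nat.card K : ℂ) := by
      have h := horth ψ hψ
      rw [if_pos rfl, finsum_eq_sum_of_fintype] at h
      rw [← h, Finset.mul_sum]
      refine Finset.sum_congr rfl fun k _ => ?_
      by_cases hk : k ∈ K
      · rw [he k hk]
        ring
      · rw [hz k hk]
        ring
    have h1 : φ 1 = e * ψ 1 := he 1 K.one_mem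
    have he' : (e : ℂ) ≠ 0 := Nat.cast_ne_zero.2 he0.ne'
    refine mul_left_cancel₀ he' ?_
    calc (e : ℂ) * (ψ 1 * ∑ k : Γ, ψ k⁻¹ * φ (k * g)) = φ 1 * ∑ k : Γ, ψ k⁻¹ * φ (k * g) := by
          rw [h1]; ring
      _ = φ g * (e * (Nat.card K : ℂ)) := by rw [havg, hs]
      _ = e * ((Nat.card K : ℂ) * φ g) := by ring
  · rw [if_neg he, zero_mul]
    obtain ⟨ψ', hψ', e, he0, hov⟩ := (hCFA Γ K S hKS hSK).1 φ hφ
    have hcj := (hCCJ Γ K S hSK ψ' hψ').1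
    have hne : ∀ m ∈ S, funMap (MulAut.conj m) ψ' ≠ ψ := by
      intro m hm h
      apply he
      have hψψ' : ψ' = ψ := by
        have h1 : cjF m⁻¹ ψ = ψ' := by
          rw [← h]
          funext x
          rw [cjF_apply]
          change ψ' ((MulAut.conj m)⁻¹ (m⁻¹⁻¹ * x * m⁻¹)) = ψ' x
          rw [MulAut.conj_inv_apply]
          congr 1
          group
        rw [← h1, hinv _ (S.inv_mem hm)]
      refine ⟨e, he0, fun x hx => ?_⟩
      rw [hov x hx]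
      have hset : {ψ'' : Γ → ℂ | ∃ n ∈ S, ψ'' = funMap (MulAut.conj n) ψ'} = {ψ} := by
        ext θ
        constructor
        · rintro ⟨n, hn, rfl⟩
          rw [hψψ']
          exact hinv n hn
        · rintro rfl
          exact ⟨1, S.one_mem, by rw [hψψ']; exact (hinv 1 S.one_mem).symm⟩
      rw [hset, finsum_mem_singleton]
    have hfinC : {ψ'' : Γ → ℂ | ∃ n ∈ S, ψ'' = funMap (MulAut.conj n) ψ'}.Finite := by
      refine ((hB2 Γ K).1).subset ?_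
      rintro θ ⟨n, hn, rfl⟩
      exact (hcj n hn).1
    have hs : ∑ k : Γ, ψ k⁻¹ * φ k = 0 := by
      have h1 : ∀ k : Γ, ψ k⁻¹ * φ k = ∑ θ ∈ hfinC.toFinset, e * (θ k * ψ k⁻¹) := by
        intro k
        by_cases hk : k ∈ K
        · rw [hov k hk, finsum_mem_eq_finite_toFinset_sum _ hfinC, Finset.mul_sum, Finset.mul_sum]
          exact Finset.sum_congr rfl fun θ _ => by ring
        · rw [hz k hk, zero_mul]
          refine (Finset.sum_eq_zero fun θ _ => ?_).symm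
          rw [mul_zero, mul_zero]
      rw [Finset.sum_congr rfl fun k _ => h1 k, Finset.sum_comm]
      refine Finset.sum_eq_zero fun θ hθ => ?_
      rw [hfinC.mem_toFinset] at hθ
      obtain ⟨m, hm, rfl⟩ := hθ
      rw [← Finset.mul_sum]
      have h2 := ((hB2 Γ K).2 _ (hcj m hm).1).2.2.2.2 ψ hψ
      rw [if_neg (hne m hm), finsum_eq_sum_of_fintype] at h2
      rw [h2, mul_zero]
    rw [hs, mul_zero] at havg
    have h3 : ∑ k : Γ, ψ k⁻¹ * φ (k * g) = 0 := by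
      rcases mul_eq_zero.1 havg with h | h
      · exact absurd h hφ1
      · exact h
    rw [h3, mul_zero]

theorem KTF (hSCH : SCH_stmt) (hIDM : IDM_stmt) (hEXP : EXP_stmt) (hB2 : B2_stmt) (hCFA : CFA_stmt)
    (hCCJ : CCJ_stmt) : KTF_stmt := by
  intro Γ _ _ K S hKS hSK ψ hψ hinv
  classical
  have := Fintype.ofFinite Γ
  obtain ⟨-, -, -, hψ0, -⟩ := (hB2 Γ K).2 ψ hψ
  have hz : ∀ k, k ∉ K → ψ k⁻¹ = 0 := fun k hk => hψ0 _ fun h => hk (by
    have := K.inv_mem h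
    rwa [inv_inv] at this)
  let T : Finset Γ := Finset.univ.filter fun x => x ∈ S
  have hTm : ∀ x, x ∈ T ↔ x ∈ S := fun x => by simp [T]
  let I : Finset (Γ → ℂ) := (hB2 Γ S).1.toFinset
  have hIm : ∀ φ, φ ∈ I ↔ φ ∈ IrrOn S := fun φ => (hB2 Γ S).1.mem_toFinset
  let E : (Γ → ℂ) → Prop := fun φ => ∃ e : ℕ, 0 < e ∧ ∀ x ∈ K, φ x = e * ψ x
  have hA : {φ : Γ → ℂ | φ ∈ IrrOn S ∧ ∃ e : ℕ, 0 < e ∧ ∀ x ∈ K, φ x = e * ψ x}.ncard =
      (I.filter E).card := by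
    rw [← Set.ncard_coe_finset]
    congr 1
    ext φ
    simp only [Set.mem_setOf_eq, Finset.coe_filter, hIm, E]
  -- left side
  have hL : ∑ g ∈ T, ∑ φ ∈ I, ((if E φ then (Nat.card K : ℂ) else 0) * φ g) * φ g⁻¹ =
      (Nat.card K : ℂ) * Nat.card S * ((I.filter E).card : ℕ) := by
    rw [Finset.sum_comm]
    have h1 : ∀ φ ∈ I, ∑ g ∈ T, ((if E φ then (Nat.card K : ℂ) else 0) * φ g) * φ g⁻¹ =
        if E φ then (Nat.card K : ℂ) * Nat.card S else 0 := by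
      intro φ hφ
      obtain ⟨-, -, -, hφ0, hor⟩ := (hB2 Γ S).2 φ ((hIm φ).1 hφ)
      have h2 := hor φ ((hIm φ).1 hφ)
      rw [if_pos rfl, finsum_eq_sum_of_fintype] at h2
      have h3 : ∑ g ∈ T, φ g * φ g⁻¹ = (Nat.card S : ℂ) := by
        rw [← h2]
        refine Finset.sum_subset (Finset.subset_univ _) fun x _ hx => ?_
        rw [hφ0 x fun h => hx ((hTm x).2 h), zero_mul]
      split_ifs with hE
      · rw [← h3, Finset.mul_sum]
        exact Finset.sum_congr rfl fun g _ => by ring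
      · exact Finset.sum_eq_zero fun g _ => by ring
    rw [Finset.sum_congr rfl h1, ← Finset.sum_filter, Finset.sum_const, nsmul_eq_mul]
    ring
  -- right side
  have hR : ∀ g ∈ T, ∑ φ ∈ I, ((if E φ then (Nat.card K : ℂ) else 0) * φ g) * φ g⁻¹ =
      ψ 1 * ∑ s ∈ T, ψ (g * s * g⁻¹ * s⁻¹) := by
    intro g hg
    have hgS := (hTm g).1 hg
    have h1 : ∀ φ ∈ I, ((if E φ then (Nat.card K : ℂ) else 0) * φ g) * φ g⁻¹ =
        ψ 1 * ∑ k : Γ, ψ k⁻¹ * (φ (k * g) * φ g⁻¹) := by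
      intro φ hφ
      have h2 := KTF_coef hSCH hB2 hCFA hCCJ K S hKS hSK ψ hψ hinv φ ((hIm φ).1 hφ) g hgS
      change ψ 1 * ∑ k : Γ, ψ k⁻¹ * φ (k * g) =
        (if E φ then (Nat.card K : ℂ) else 0) * φ g at h2
      rw [← h2, mul_assoc, Finset.sum_mul]
      congr 1
      exact Finset.sum_congr rfl fun k _ => by ring
    rw [Finset.sum_congr rfl h1, ← Finset.mul_sum, Finset.sum_comm]
    congr 1
    have h3 : ∀ k : Γ, ∑ φ ∈ I, ψ k⁻¹ * (φ (k * g) * φ g⁻¹) =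
        ∑ s ∈ T, ψ k⁻¹ * GR.dl (s⁻¹ * (k * g)⁻¹ * s * g) := by
      intro k
      by_cases hk : k ∈ K
      · have h4 := KTF_col hB2 hIDM hEXP Γ S (k * g) g (S.mul_mem (hKS hk) hgS) hgS
        rw [Sf, finsum_mem_eq_finite_toFinset_sum _ (hB2 Γ S).1,
          finsum_mem_eq_finite_toFinset_sum _ (Set.toFinite (S : Set Γ))] at h4
        rw [← Finset.mul_sum, ← Finset.mul_sum]
        congr 1
        refine h4.symm.trans ?_
        refine Finset.sum_congr ?_ fun _ _ => rfl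
        ext x
        rw [Set.Finite.mem_toFinset, hTm]
        exact Iff.rfl
      · rw [hz k hk]
        simp
    rw [Finset.sum_congr rfl fun k _ => h3 k, Finset.sum_comm]
    refine Finset.sum_congr rfl fun s _ => ?_
    rw [Finset.sum_eq_single (s * g * s⁻¹ * g⁻¹)]
    · have e1 : s⁻¹ * (s * g * s⁻¹ * g⁻¹ * g)⁻¹ * s * g = 1 := by group
      have e2 : (s * g * s⁻¹ * g⁻¹)⁻¹ = g * s * g⁻¹ * s⁻¹ := by group
      rw [e1, e2]
      simp [GR.dl]
    · intro k _ hk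
      have h5 : s⁻¹ * (k * g)⁻¹ * s * g ≠ 1 := by
        intro h
        apply hk
        have e3 : k = s * g * (s⁻¹ * (k * g)⁻¹ * s * g)⁻¹ * s⁻¹ * g⁻¹ := by group
        rw [e3, h]
        group
      have h6 : (GR.dl (s⁻¹ * (k * g)⁻¹ * s * g) : ℂ) = 0 := if_neg h5
      rw [h6, mul_zero]
    · intro h
      exact absurd (Finset.mem_univ _) h
  rw [hA, ← hL, Finset.sum_congr rfl hR, ← Finset.mul_sum,
    finsum_mem_eq_finite_toFinset_sum _ (Set.toFinite _)]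
  congr 1
  rw [Finset.sum_comm, ← Finset.sum_product']
  symm
  refine Finset.sum_subset (fun x hx => ?_) fun x hx hx2 => ?_
  · rw [Set.Finite.mem_toFinset] at hx
    rw [Finset.mem_product]
    exact ⟨(hTm _).2 hx.1, (hTm _).2 hx.2.1⟩
  · rw [Finset.mem_product] at hx
    rw [Set.Finite.mem_toFinset] at hx2
    have h7 : x.1 * x.2 * x.1⁻¹ * x.2⁻¹ ∉ K := fun h =>
      hx2 ⟨(hTm _).1 hx.1, (hTm _).1 hx.2, h⟩
    have h8 := hz _ h7
    have e : (x.1 * x.2 * x.1⁻¹ * x.2⁻¹)⁻¹ = x.2 * x.1 * x.2⁻¹ * x.1⁻¹ := by group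
    rw [e] at h8
    exact h8

end Pool.Agent.FI2
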